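import Pool.Agent.Helper84.FX.StX

/-!
# Project FX, module A1: the part `σ ≠ 0` over `W_G`
-/

set_option autoImplicit false

namespace Pool.Agent.Helper29.FX

open Set Pool.Agent.Helper84.FX Pool.Agent.Helper72.FX

noncomputable section

private theorem c3 {T : Type} [TopologicalSpace T] {S : Set T} {k : ℂ → ℂ → ℂ → ℂ}
    (hk : Continuous (fun q : ℂ × ℂ × ℂ => k q.1 q.2.1 q.2.2)) {a b t : T → ℂ}
    (ha : ContinuousOn a S) (hb : ContinuousOn b S) (ht : ContinuousOn t S) :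
    ContinuousOn (fun x => k (a x) (b x) (t x)) S :=
  hk.comp_continuousOn (ha.prodMk (hb.prodMk ht))

private theorem cz {T : Type} [TopologicalSpace T] {S : Set T} {f : T → Fin 10 → ℂ}
    (hf : ContinuousOn f S) (i : Fin 10) : ContinuousOn (fun x => f x i) S :=
  (continuous_apply i).comp_continuousOn hf

/-- the inverse of `(SM, σ)` up to homotopy -/
private def gA (q : (ℂ × ℂ × ℂ × ℂ) × ℂ) : Fin 10 → ℂ :=
  ![0, 0, q.1.1, q.2, 0, q.2, 0, q.1.2.1 / q.2 ^ 2, q.1.2.2.1 / q.2 ^ 2, q.1.2.2.2 / q.2 ^ 2]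

/-- the homotopy -/
private def HA (p : ℝ × (Fin 10 → ℂ)) : Fin 10 → ℂ :=
  ![(p.1 : ℂ) * p.2 0, (p.1 : ℂ) * p.2 1, p.2 2, p.2 5,
    nu ((p.1 : ℂ) * p.2 0) ((p.1 : ℂ) * p.2 1) (p.2 2) / p.2 5 - (p.1 : ℂ) * p.2 6, p.2 5,
    (p.1 : ℂ) * p.2 6,
    ((SM p.2).2.1 / p.2 5 -
      (p.1 : ℂ) * p.2 6 * kx ((p.1 : ℂ) * p.2 0) ((p.1 : ℂ) * p.2 1) (p.2 2)) / p.2 5,
    ((SM p.2).2.2.1 / p.2 5 -
      (p.1 : ℂ) * p.2 6 * ky ((p.1 : ℂ) * p.2 0) ((p.1 : ℂ) * p.2 1) (p.2 2)) / p.2 5,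
    ((SM p.2).2.2.2 / p.2 5 -
      (p.1 : ℂ) * p.2 6 * kz ((p.1 : ℂ) * p.2 0) ((p.1 : ℂ) * p.2 1) (p.2 2)) / p.2 5]

/-- the inverse of the parametrisation of the cylinder part -/
private def gB (q : (ℂ × ℂ × ℂ × ℝ) × ℂ) : (Fin 10 → ℂ) × ℝ :=
  (![q.1.1, q.1.2.1, q.1.2.2.1, q.2, (q.1.2.2.2 : ℂ) * nu q.1.1 q.1.2.1 q.1.2.2.1 / q.2, q.2,
    (1 - (q.1.2.2.2 : ℂ)) * nu q.1.1 q.1.2.1 q.1.2.2.1 / q.2, 0, 0, 0], q.1.2.2.2)

private theorem SM_cont (hK : StKSM) : Continuous SM := by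
  rw [← continuousOn_univ]
  have hz : ∀ i : Fin 10, ContinuousOn (fun z : Fin 10 → ℂ => z i) univ :=
    fun i => (continuous_apply i).continuousOn
  have h1 := c3 hK.1.continuous (hz 0) (hz 1) (hz 2)
  have h2 := c3 hK.2.1.continuous (hz 0) (hz 1) (hz 2)
  have h3 := c3 hK.2.2.1.continuous (hz 0) (hz 1) (hz 2)
  exact (hz 2).prodMk (((hz 5).mul (((hz 6).mul h1).add ((hz 3).mul (hz 7)))).prodMk
    (((hz 5).mul (((hz 6).mul h2).add ((hz 3).mul (hz 8)))).prodMk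
      ((hz 5).mul (((hz 6).mul h3).add ((hz 3).mul (hz 9))))))

private theorem gA_cont (S : Set ((ℂ × ℂ × ℂ × ℂ) × ℂ)) (hS : ∀ q ∈ S, q.2 ≠ 0) :
    ContinuousOn gA S := by
  have hd : ∀ q ∈ S, q.2 ^ 2 ≠ 0 := fun q hq => pow_ne_zero 2 (hS q hq)
  rw [continuousOn_pi]
  intro i
  fin_cases i
  · exact continuousOn_const
  · exact continuousOn_const
  · exact (by fun_prop : Continuous fun q : (ℂ × ℂ × ℂ × ℂ) × ℂ => q.1.1).continuousOn
  · exact continuous_snd.continuousOn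
  · exact continuousOn_const
  · exact continuous_snd.continuousOn
  · exact continuousOn_const
  · exact (by fun_prop : Continuous fun q : (ℂ × ℂ × ℂ × ℂ) × ℂ => q.1.2.1).continuousOn.div
      (by fun_prop : Continuous fun q : (ℂ × ℂ × ℂ × ℂ) × ℂ => q.2 ^ 2).continuousOn hd
  · exact (by fun_prop : Continuous fun q : (ℂ × ℂ × ℂ × ℂ) × ℂ => q.1.2.2.1).continuousOn.div
      (by fun_prop : Continuous fun q : (ℂ × ℂ × ℂ × ℂ) × ℂ => q.2 ^ 2).continuousOn hd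
  · exact (by fun_prop : Continuous fun q : (ℂ × ℂ × ℂ × ℂ) × ℂ => q.1.2.2.2).continuousOn.div
      (by fun_prop : Continuous fun q : (ℂ × ℂ × ℂ × ℂ) × ℂ => q.2 ^ 2).continuousOn hd

private theorem HA_cont (hK : StKSM) (S : Set (ℝ × (Fin 10 → ℂ))) (hS : ∀ q ∈ S, q.2 5 ≠ 0) :
    ContinuousOn HA S := by
  have hz : ∀ i : Fin 10, ContinuousOn (fun p : ℝ × (Fin 10 → ℂ) => p.2 i) S :=
    fun i => ((continuous_apply i).comp continuous_snd).continuousOn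
  have ht : ContinuousOn (fun p : ℝ × (Fin 10 → ℂ) => (p.1 : ℂ)) S :=
    (Complex.continuous_ofReal.comp continuous_fst).continuousOn
  have hSM : ContinuousOn (fun p : ℝ × (Fin 10 → ℂ) => SM p.2) S :=
    ((SM_cont hK).comp continuous_snd).continuousOn
  have hx := c3 hK.1.continuous (ht.mul (hz 0)) (ht.mul (hz 1)) (hz 2)
  have hy := c3 hK.2.1.continuous (ht.mul (hz 0)) (ht.mul (hz 1)) (hz 2)
  have hw := c3 hK.2.2.1.continuous (ht.mul (hz 0)) (ht.mul (hz 1)) (hz 2)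
  have hn := c3 hK.2.2.2.2.continuous (ht.mul (hz 0)) (ht.mul (hz 1)) (hz 2)
  rw [continuousOn_pi]
  intro i
  fin_cases i
  · exact ht.mul (hz 0)
  · exact ht.mul (hz 1)
  · exact hz 2
  · exact hz 5
  · exact (hn.div (hz 5) hS).sub (ht.mul (hz 6))
  · exact hz 5
  · exact ht.mul (hz 6)
  · exact ((hSM.snd.fst.div (hz 5) hS).sub ((ht.mul (hz 6)).mul hx)).div (hz 5) hS
  · exact ((hSM.snd.snd.fst.div (hz 5) hS).sub ((ht.mul (hz 6)).mul hy)).div (hz 5) hS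
  · exact ((hSM.snd.snd.snd.div (hz 5) hS).sub ((ht.mul (hz 6)).mul hw)).div (hz 5) hS

private theorem gB_cont (hK : StKSM) (S : Set ((ℂ × ℂ × ℂ × ℝ) × ℂ)) (hS : ∀ q ∈ S, q.2 ≠ 0) :
    ContinuousOn gB S := by
  have h1 : ContinuousOn (fun q : (ℂ × ℂ × ℂ × ℝ) × ℂ => q.1.1) S :=
    (by fun_prop : Continuous _).continuousOn
  have h2 : ContinuousOn (fun q : (ℂ × ℂ × ℂ × ℝ) × ℂ => q.1.2.1) S :=
    (by fun_prop : Continuous _).continuousOn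
  have h3 : ContinuousOn (fun q : (ℂ × ℂ × ℂ × ℝ) × ℂ => q.1.2.2.1) S :=
    (by fun_prop : Continuous _).continuousOn
  have h4 : ContinuousOn (fun q : (ℂ × ℂ × ℂ × ℝ) × ℂ => q.1.2.2.2) S :=
    (by fun_prop : Continuous _).continuousOn
  have h4' : ContinuousOn (fun q : (ℂ × ℂ × ℂ × ℝ) × ℂ => (q.1.2.2.2 : ℂ)) S :=
    Complex.continuous_ofReal.comp_continuousOn h4
  have h5 : ContinuousOn (fun q : (ℂ × ℂ × ℂ × ℝ) × ℂ => q.2) S := continuous_snd.continuousOn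
  have hn := c3 hK.2.2.2.2.continuous h1 h2 h3
  refine ContinuousOn.prodMk ?_ h4
  rw [continuousOn_pi]
  intro i
  fin_cases i
  · exact h1
  · exact h2
  · exact h3
  · exact h5
  · exact (h4'.mul hn).div h5 hS
  · exact h5
  · exact ((continuousOn_const.sub h4').mul hn).div h5 hS
  · exact continuousOn_const
  · exact continuousOn_const
  · exact continuousOn_const

private theorem SM_gA (q : (ℂ × ℂ × ℂ × ℂ) × ℂ) (hq : q.2 ≠ 0) : SM (gA q) = q.1 := by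
  obtain ⟨⟨t, x, y, w⟩, s⟩ := q
  have hs : s ≠ 0 := hq
  have e1 : SM (gA ((t, x, y, w), s)) = (t, s * (0 * kx (0 : ℂ) 0 t + s * (x / s ^ 2)),
    s * (0 * ky (0 : ℂ) 0 t + s * (y / s ^ 2)), s * (0 * kz (0 : ℂ) 0 t + s * (w / s ^ 2))) := rfl
  rw [e1]
  have h : ∀ k u : ℂ, s * (0 * k + s * (u / s ^ 2)) = u := by
    intro k u
    field_simp
    ring
  rw [h, h, h]

private theorem nu0 (t : ℂ) : nu (0 : ℂ) 0 t = 0 := by
  unfold nu
  ring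

private theorem gA_mem (hQS : StQS) (U : Set ℂ) (q : (ℂ × ℂ × ℂ × ℂ) × ℂ) (hq : q.2 ≠ 0)
    (hQ : q.1 ∈ QU U) : gA q ∈ WG U := by
  have hE : EE1 (gA q) = 0 := by
    have e1 : EE1 (gA q) = nu (0 : ℂ) 0 q.1.1 - q.2 * 0 - q.2 * 0 := rfl
    rw [e1, nu0]
    ring
  exact ⟨hQS.2 U (gA q) hE hq hq (by rw [SM_gA q hq]; exact hQ), rfl⟩

private theorem SM_HA (p : ℝ × (Fin 10 → ℂ)) (hp : p.2 5 ≠ 0) : SM (HA p) = SM p.2 := by
  obtain ⟨τ, z⟩ := p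
  have hs : z 5 ≠ 0 := hp
  have h : ∀ m k S : ℂ, z 5 * (m * k + z 5 * ((S / z 5 - m * k) / z 5)) = S := by
    intro m k S
    field_simp
    ring
  refine Prod.ext rfl (Prod.ext ?_ (Prod.ext ?_ ?_))
  · exact h _ _ _
  · exact h _ _ _
  · exact h _ _ _

private theorem HA_mem (hQS : StQS) (U : Set ℂ) (p : ℝ × (Fin 10 → ℂ)) (hz : p.2 ∈ WG U)
    (hp : p.2 5 ≠ 0) : HA p ∈ WG U := by
  have hE : EE1 (HA p) = 0 := by
    have e1 : EE1 (HA p) = nu ((p.1 : ℂ) * p.2 0) ((p.1 : ℂ) * p.2 1) (p.2 2) -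
      p.2 5 * (nu ((p.1 : ℂ) * p.2 0) ((p.1 : ℂ) * p.2 1) (p.2 2) / p.2 5 - (p.1 : ℂ) * p.2 6) -
      p.2 5 * ((p.1 : ℂ) * p.2 6) := rfl
    rw [e1]
    generalize nu ((p.1 : ℂ) * p.2 0) ((p.1 : ℂ) * p.2 1) (p.2 2) = v
    field_simp
    ring
  exact ⟨hQS.2 U (HA p) hE hp hp (by rw [SM_HA p hp]; exact hQS.1 U p.2 hz.1), rfl⟩

private theorem ext10 {f g : Fin 10 → ℂ} (h0 : f 0 = g 0) (h1 : f 1 = g 1) (h2 : f 2 = g 2)
    (h3 : f 3 = g 3) (h4 : f 4 = g 4) (h5 : f 5 = g 5) (h6 : f 6 = g 6) (h7 : f 7 = g 7)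
    (h8 : f 8 = g 8) (h9 : f 9 = g 9) : f = g := by
  funext i
  fin_cases i
  exacts [h0, h1, h2, h3, h4, h5, h6, h7, h8, h9]

private theorem HA0 (t : ℝ) (z : Fin 10 → ℂ) : HA (t, z) 0 = (t : ℂ) * z 0 := rfl
private theorem HA1 (t : ℝ) (z : Fin 10 → ℂ) : HA (t, z) 1 = (t : ℂ) * z 1 := rfl
private theorem HA2 (t : ℝ) (z : Fin 10 → ℂ) : HA (t, z) 2 = z 2 := rfl
private theorem HA3 (t : ℝ) (z : Fin 10 → ℂ) : HA (t, z) 3 = z 5 := rfl
private theorem HA4 (t : ℝ) (z : Fin 10 → ℂ) : HA (t, z) 4 =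
  nu ((t : ℂ) * z 0) ((t : ℂ) * z 1) (z 2) / z 5 - (t : ℂ) * z 6 := rfl
private theorem HA5 (t : ℝ) (z : Fin 10 → ℂ) : HA (t, z) 5 = z 5 := rfl
private theorem HA6 (t : ℝ) (z : Fin 10 → ℂ) : HA (t, z) 6 = (t : ℂ) * z 6 := rfl
private theorem HA7 (t : ℝ) (z : Fin 10 → ℂ) : HA (t, z) 7 =
  ((SM z).2.1 / z 5 -
      (t : ℂ) * z 6 * kx ((t : ℂ) * z 0) ((t : ℂ) * z 1) (z 2)) / z 5 := rfl
private theorem HA8 (t : ℝ) (z : Fin 10 → ℂ) : HA (t, z) 8 =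
  ((SM z).2.2.1 / z 5 -
      (t : ℂ) * z 6 * ky ((t : ℂ) * z 0) ((t : ℂ) * z 1) (z 2)) / z 5 := rfl
private theorem HA9 (t : ℝ) (z : Fin 10 → ℂ) : HA (t, z) 9 =
  ((SM z).2.2.2 / z 5 -
      (t : ℂ) * z 6 * kz ((t : ℂ) * z 0) ((t : ℂ) * z 1) (z 2)) / z 5 := rfl
private theorem gA0 (S : ℂ × ℂ × ℂ × ℂ) (s : ℂ) : gA (S, s) 0 = 0 := rfl
private theorem gA1 (S : ℂ × ℂ × ℂ × ℂ) (s : ℂ) : gA (S, s) 1 = 0 := rfl
private theorem gA2 (S : ℂ × ℂ × ℂ × ℂ) (s : ℂ) : gA (S, s) 2 = S.1 := rfl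
private theorem gA3 (S : ℂ × ℂ × ℂ × ℂ) (s : ℂ) : gA (S, s) 3 = s := rfl
private theorem gA4 (S : ℂ × ℂ × ℂ × ℂ) (s : ℂ) : gA (S, s) 4 = 0 := rfl
private theorem gA5 (S : ℂ × ℂ × ℂ × ℂ) (s : ℂ) : gA (S, s) 5 = s := rfl
private theorem gA6 (S : ℂ × ℂ × ℂ × ℂ) (s : ℂ) : gA (S, s) 6 = 0 := rfl
private theorem gA7 (S : ℂ × ℂ × ℂ × ℂ) (s : ℂ) : gA (S, s) 7 = S.2.1 / s ^ 2 := rfl
private theorem gA8 (S : ℂ × ℂ × ℂ × ℂ) (s : ℂ) : gA (S, s) 8 = S.2.2.1 / s ^ 2 := rfl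
private theorem gA9 (S : ℂ × ℂ × ℂ × ℂ) (s : ℂ) : gA (S, s) 9 = S.2.2.2 / s ^ 2 := rfl
private theorem SM0 (z : Fin 10 → ℂ) : (SM z).1 = z 2 := rfl
private theorem SM1 (z : Fin 10 → ℂ) : (SM z).2.1 =
  z 5 * (z 6 * kx (z 0) (z 1) (z 2) + z 3 * z 7) := rfl
private theorem SM2 (z : Fin 10 → ℂ) : (SM z).2.2.1 =
  z 5 * (z 6 * ky (z 0) (z 1) (z 2) + z 3 * z 8) := rfl
private theorem SM3 (z : Fin 10 → ℂ) : (SM z).2.2.2 =
  z 5 * (z 6 * kz (z 0) (z 1) (z 2) + z 3 * z 9) := rfl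

private theorem HA_zero (z : Fin 10 → ℂ) : HA (0, z) = gA (SM z, z 5) := by
  have key : ∀ k S : ℂ, (S / z 5 - 0 * k) / z 5 = S / z 5 ^ 2 := by
    intro k S
    rw [zero_mul, sub_zero, div_div, sq]
  refine ext10 ?_ ?_ ?_ ?_ ?_ ?_ ?_ ?_ ?_ ?_
  · rw [HA0, gA0, Complex.ofReal_zero, zero_mul]
  · rw [HA1, gA1, Complex.ofReal_zero, zero_mul]
  · rw [HA2, gA2, SM0]
  · rw [HA3, gA3]
  · rw [HA4, gA4, Complex.ofReal_zero, zero_mul, zero_mul, zero_mul, nu0, zero_div, sub_zero]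
  · rw [HA5, gA5]
  · rw [HA6, gA6, Complex.ofReal_zero, zero_mul]
  · rw [HA7, gA7, Complex.ofReal_zero, zero_mul (z 6)]
    exact key _ _
  · rw [HA8, gA8, Complex.ofReal_zero, zero_mul (z 6)]
    exact key _ _
  · rw [HA9, gA9, Complex.ofReal_zero, zero_mul (z 6)]
    exact key _ _

private theorem HA_one (z : Fin 10 → ℂ) (hz : z 5 ≠ 0) (hE : EE1 z = 0) (h35 : z 5 = z 3) :
    HA (1, z) = z := by
  have hE' : nu (z 0) (z 1) (z 2) - z 5 * z 4 - z 5 * z 6 = 0 := by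
    have e1 : EE1 z = nu (z 0) (z 1) (z 2) - z 3 * z 4 - z 5 * z 6 := rfl
    rw [e1, ← h35] at hE
    exact hE
  have key : ∀ k o : ℂ, (z 5 * (z 6 * k + z 5 * o) / z 5 - z 6 * k) / z 5 = o := by
    intro k o
    rw [mul_div_cancel_left₀ _ hz, add_sub_cancel_left, mul_div_cancel_left₀ _ hz]
  refine ext10 ?_ ?_ ?_ ?_ ?_ ?_ ?_ ?_ ?_ ?_
  · rw [HA0, Complex.ofReal_one, one_mul]
  · rw [HA1, Complex.ofReal_one, one_mul]
  · rw [HA2]
  · rw [HA3, h35]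
  · rw [HA4, Complex.ofReal_one, one_mul, one_mul, one_mul]
    have h2 : nu (z 0) (z 1) (z 2) = z 5 * (z 4 + z 6) := by linear_combination hE'
    rw [h2, mul_div_cancel_left₀ _ hz, add_sub_cancel_right]
  · rw [HA5]
  · rw [HA6, Complex.ofReal_one, one_mul]
  · rw [HA7, Complex.ofReal_one, one_mul, one_mul, one_mul, SM1, ← h35]
    exact key _ _
  · rw [HA8, Complex.ofReal_one, one_mul, one_mul, one_mul, SM2, ← h35]
    exact key _ _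
  · rw [HA9, Complex.ofReal_one, one_mul, one_mul, one_mul, SM3, ← h35]
    exact key _ _

/-- part (i) -/
private theorem we_i (hHEQ : StHEQ) (hQS : StQS) (hK : StKSM) (U : Set ℂ) :
    WE {z | z ∈ WG U ∧ z 5 ≠ 0} (QU U ×ˢ {s : ℂ | s ≠ 0}) (fun z => (SM z, z 5)) := by
  have hf : Mp {z | z ∈ WG U ∧ z 5 ≠ 0} (QU U ×ˢ {s : ℂ | s ≠ 0})
      (fun z : Fin 10 → ℂ => (SM z, z 5)) :=
    ⟨((SM_cont hK).prodMk (continuous_apply 5)).continuousOn,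
      fun z hz => ⟨hQS.1 U z hz.1.1, hz.2⟩⟩
  have hg : Mp (QU U ×ˢ {s : ℂ | s ≠ 0}) {z | z ∈ WG U ∧ z 5 ≠ 0} gA :=
    ⟨gA_cont _ (fun q hq => hq.2), fun q hq => ⟨gA_mem hQS U q hq.2 hq.1, hq.2⟩⟩
  refine hHEQ _ _ _ _ _ gA hf hg ?_ ?_
  · refine ⟨HA, ⟨HA_cont hK _ (fun p hp => hp.2.2), fun p hp =>
      ⟨HA_mem hQS U p hp.2.1 hp.2.2, hp.2.2⟩⟩, fun z hz => HA_zero z, fun z hz =>
      HA_one z hz.2 hz.1.1.2.1 hz.1.2⟩
  · refine ⟨fun p => p.2, ⟨continuous_snd.continuousOn, fun p hp => hp.2⟩, fun q hq => ?_,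
      fun q hq => rfl⟩
    exact Prod.ext (SM_gA q hq.2).symm rfl

/-- part (ii) -/
private theorem we_ii (hWCG : StWCG) (hK : StKSM) (U : Set ℂ) :
    WE {q | q ∈ DM (N1G U) (N2G U) ∧ q.1 5 ≠ 0} (PU U ×ˢ {s : ℂ | s ≠ 0})
      (fun q : (Fin 10 → ℂ) × ℝ => ((q.1 0, q.1 1, q.1 2, q.2), q.1 5)) := by
  refine hWCG.2.1 _ _ _ _ _ gB ⟨by fun_prop, ?_⟩ ⟨gB_cont hK _ (fun q hq => hq.2), ?_⟩ ?_ ?_
  · rintro ⟨z, r⟩ ⟨⟨h0, h1, hA, hB⟩, h5⟩
    refine ⟨⟨?_, h0, h1, ?_⟩, h5⟩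
    · rcases lt_or_ge r 1 with h | h
      · exact (hA h).1.1
      · exact (hB (lt_of_lt_of_le one_pos h)).1.1
    · intro hr0 hr1
      have e1 := (hA hr1).1.2.2.2.2.2
      have e2 := (hB hr0).1.2.1
      change nz z = z 5 * z 6 at e1
      change z 6 = 0 at e2
      change nz z = 0
      rw [e1, e2, mul_zero]
  · rintro ⟨⟨a, b, t, r⟩, s⟩ ⟨⟨ht, h0, h1, hn⟩, hs⟩
    change t ∈ U at ht
    change 0 ≤ r at h0
    change r ≤ 1 at h1
    change 0 < r → r < 1 → nu a b t = 0 at hn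
    change s ≠ 0 at hs
    refine ⟨⟨h0, h1, ?_, ?_⟩, hs⟩
    · intro hr
      change r < 1 at hr
      have h2 : (r : ℂ) * nu a b t = 0 := by
        rcases h0.eq_or_lt with h | h
        · rw [← h]
          simp
        · rw [hn h hr, mul_zero]
      refine ⟨⟨ht, ?_, rfl, rfl, rfl, ?_⟩, rfl⟩
      · change (r : ℂ) * nu a b t / s = 0
        rw [h2, zero_div]
      · change nu a b t = s * ((1 - (r : ℂ)) * nu a b t / s)
        rw [mul_div_cancel₀ _ hs]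
        linear_combination h2
    · intro hr
      change 0 < r at hr
      have h2 : (1 - (r : ℂ)) * nu a b t = 0 := by
        rcases h1.eq_or_lt with h | h
        · rw [h]
          simp
        · rw [hn hr h, mul_zero]
      refine ⟨⟨ht, ?_, rfl, rfl, rfl, ?_⟩, rfl⟩
      · change (1 - (r : ℂ)) * nu a b t / s = 0
        rw [h2, zero_div]
      · change nu a b t = s * ((r : ℂ) * nu a b t / s)
        rw [mul_div_cancel₀ _ hs]
        linear_combination h2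
  · rintro ⟨z, r⟩ ⟨⟨h0, h1, hA, hB⟩, h5⟩
    change 0 ≤ r at h0
    change r ≤ 1 at h1
    change r < 1 → z ∈ N1G U at hA
    change 0 < r → z ∈ N2G U at hB
    change z 5 ≠ 0 at h5
    have e35 : z 5 = z 3 := by
      rcases lt_or_ge r 1 with h | h
      · exact (hA h).2
      · exact (hB (lt_of_lt_of_le one_pos h)).2
    have e7 : z 7 = 0 ∧ z 8 = 0 ∧ z 9 = 0 := by
      rcases lt_or_ge r 1 with h | h
      · exact ⟨(hA h).1.2.2.1, (hA h).1.2.2.2.1, (hA h).1.2.2.2.2.1⟩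
      · have h' := hB (lt_of_lt_of_le one_pos h)
        exact ⟨h'.1.2.2.1, h'.1.2.2.2.1, h'.1.2.2.2.2.1⟩
    have e4 : (r : ℂ) * nu (z 0) (z 1) (z 2) / z 5 = z 4 := by
      rw [div_eq_iff h5]
      rcases h0.eq_or_lt with h | h
      · have e := (hA (by rw [← h]; exact one_pos)).1.2.1
        change z 4 = 0 at e
        rw [e, ← h]
        simp
      · have hb := hB h
        have e := hb.1.2.2.2.2.2
        change nu (z 0) (z 1) (z 2) = z 3 * z 4 at e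
        rcases h1.eq_or_lt with h' | h'
        · rw [h', e, ← e35]
          simp only [Complex.ofReal_one]
          ring
        · have e' := (hA h').1.2.1
          change z 4 = 0 at e'
          rw [e, e']
          ring
    have e6 : (1 - (r : ℂ)) * nu (z 0) (z 1) (z 2) / z 5 = z 6 := by
      rw [div_eq_iff h5]
      rcases h1.eq_or_lt with h | h
      · have e := (hB (by rw [h]; exact one_pos)).1.2.1
        change z 6 = 0 at e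
        rw [e, h]
        simp
      · have hb := hA h
        have e := hb.1.2.2.2.2.2
        change nu (z 0) (z 1) (z 2) = z 5 * z 6 at e
        rcases h0.eq_or_lt with h' | h'
        · rw [← h', e]
          simp only [Complex.ofReal_zero]
          ring
        · have e' := (hB h').1.2.1
          change z 6 = 0 at e'
          rw [e, e']
          ring
    refine Prod.ext ?_ rfl
    funext i
    fin_cases i
    · rfl
    · rfl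
    · rfl
    · exact e35
    · exact e4
    · rfl
    · exact e6
    · exact e7.1.symm
    · exact e7.2.1.symm
    · exact e7.2.2.symm
  · rintro ⟨⟨a, b, t, r⟩, s⟩ _
    rfl

theorem hA1 : StHEQ → StCMP → StCN2 → StCGR → StPRD → StWCG → StPHI → StQS → StKSM → StDMP →
    StA1 := by
  intro hHEQ hCMP hCN2 hCGR hPRD hWCG hPHI hQS hK hDMP U hU
  have h1 := we_i hHEQ hQS hK U
  have h2 := we_ii hWCG hK U
  have h3 := hPRD _ _ ℂ (PU U) (QU U) {s : ℂ | s ≠ 0} Phi (hPHI U hU)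
  have h4 := hCMP _ _ _ _ _ _ _ _ h2 h3
  have h5 : WE {q | q ∈ DM (N1G U) (N2G U) ∧ q.1 5 ≠ 0} (QU U ×ˢ {s : ℂ | s ≠ 0})
      ((fun z : Fin 10 → ℂ => (SM z, z 5)) ∘ Prod.fst) := by
    refine hCGR _ _ _ _ _ _ ?_ h4
    rintro ⟨z, r⟩ ⟨⟨h0, h1, hA, hB⟩, h5⟩
    change 0 ≤ r at h0
    change r ≤ 1 at h1
    change r < 1 → z ∈ N1G U at hA
    change 0 < r → z ∈ N2G U at hB
    change z 5 ≠ 0 at h5
    have e7 : z 7 = 0 ∧ z 8 = 0 ∧ z 9 = 0 := by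
      rcases lt_or_ge r 1 with h | h
      · exact ⟨(hA h).1.2.2.1, (hA h).1.2.2.2.1, (hA h).1.2.2.2.2.1⟩
      · have h' := hB (lt_of_lt_of_le one_pos h)
        exact ⟨h'.1.2.2.1, h'.1.2.2.2.1, h'.1.2.2.2.2.1⟩
    refine Prod.ext ?_ rfl
    change Phi (z 0, z 1, z 2, r) = SM z
    unfold Phi SM
    rw [e7.1, e7.2.1, e7.2.2]
    rcases h0.eq_or_lt with h | h
    · have e := (hA (by rw [← h]; exact one_pos)).1.2.2.2.2.2
      change nu (z 0) (z 1) (z 2) = z 5 * z 6 at e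
      rw [if_pos (by exact h.symm.le)]
      change (z 2, nu (z 0) (z 1) (z 2) * kx (z 0) (z 1) (z 2),
        nu (z 0) (z 1) (z 2) * ky (z 0) (z 1) (z 2),
        nu (z 0) (z 1) (z 2) * kz (z 0) (z 1) (z 2)) = _
      rw [e]
      refine Prod.ext rfl (Prod.ext ?_ (Prod.ext ?_ ?_))
      · change z 5 * z 6 * kx (z 0) (z 1) (z 2) = z 5 * (z 6 * kx (z 0) (z 1) (z 2) + z 3 * 0)
        ring
      · change z 5 * z 6 * ky (z 0) (z 1) (z 2) = z 5 * (z 6 * ky (z 0) (z 1) (z 2) + z 3 * 0)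
        ring
      · change z 5 * z 6 * kz (z 0) (z 1) (z 2) = z 5 * (z 6 * kz (z 0) (z 1) (z 2) + z 3 * 0)
        ring
    · have e := (hB h).1.2.1
      change z 6 = 0 at e
      rw [if_neg (by exact not_le.2 h), e]
      refine Prod.ext rfl (Prod.ext ?_ (Prod.ext ?_ ?_))
      · change (0 : ℂ) = z 5 * (0 * kx (z 0) (z 1) (z 2) + z 3 * 0)
        ring
      · change (0 : ℂ) = z 5 * (0 * ky (z 0) (z 1) (z 2) + z 3 * 0)
        ring
      · change (0 : ℂ) = z 5 * (0 * kz (z 0) (z 1) (z 2) + z 3 * 0)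
        ring
  exact hCN2 _ _ _ _ _ _ _ _ ⟨(hDMP U).2.1.mono (fun q hq => hq.1),
    fun q hq => ⟨(hDMP U).2.2 hq.1, hq.2⟩⟩ h1 h5

end

end Pool.Agent.Helper29.FX
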