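import Pool.Agent.Helper71.FX.St
import Mathlib.Analysis.BoxIntegral.UnitPartition
import Mathlib.Analysis.Convex.Measure

/-!
Project FX (MP_d629b1_an), module CT: the number of lattice points `A^(-i) k` in the ball of
radius `R`.
-/

open MeasureTheory Filter Topology
open scoped Pointwise

noncomputable section

namespace Pool.Agent.Helper29.FX

open Wav

variable {n : ℕ}

/-- the body `{x | ‖M x‖ ≤ 1}` -/
def sS (M : Matrix (Fin n) (Fin n) ℝ) : Set (Fin n → ℝ) :=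
  {x | ‖act M (WithLp.toLp 2 x)‖ ≤ 1}

theorem act_smul' (M : Matrix (Fin n) (Fin n) ℝ) (c : ℝ) (x : E n) :
    act M (c • x) = c • act M x := by
  rw [act_eq]; exact map_smul _ _ _

theorem act_bound (M : Matrix (Fin n) (Fin n) ℝ) :
    ∃ C : ℝ, 0 ≤ C ∧ ∀ x : E n, ‖act M x‖ ≤ C * ‖x‖ := by
  refine ⟨‖(Matrix.toEuclideanLin M : E n →ₗ[ℝ] E n).toContinuousLinearMap‖, norm_nonneg _,
    fun x => ?_⟩
  exact ((Matrix.toEuclideanLin M : E n →ₗ[ℝ] E n).toContinuousLinearMap).le_opNorm x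

/-- points of the body of radius `R` have bounded coordinates -/
theorem coord_bound {M : Matrix (Fin n) (Fin n) ℝ} (hM : M.det ≠ 0) :
    ∃ C : ℝ, 0 ≤ C ∧ ∀ (x : E n) (R : ℝ), ‖act M x‖ ≤ R → ∀ i, |x i| ≤ C * R := by
  obtain ⟨C, hC0, hC⟩ := act_bound M⁻¹
  refine ⟨C, hC0, fun x R h i => ?_⟩
  have hu : IsUnit M.det := isUnit_iff_ne_zero.2 hM
  have h1 : act M⁻¹ (act M x) = x := by
    rw [← act_mul, Matrix.nonsing_inv_mul _ hu, act_one]
  have h2 : ‖x‖ ≤ C * ‖act M x‖ := by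
    conv_lhs => rw [← h1]
    exact hC _
  have h3 : ‖x i‖ ≤ ‖x‖ := PiLp.norm_apply_le x i
  calc |x i| = ‖x i‖ := rfl
    _ ≤ ‖x‖ := h3
    _ ≤ C * ‖act M x‖ := h2
    _ ≤ C * R := by gcongr

theorem fin_lattice {M : Matrix (Fin n) (Fin n) ℝ} (hM : M.det ≠ 0) (R : ℝ) :
    {k : Fin n → ℤ | ‖act M (ivec k)‖ ≤ R}.Finite := by
  obtain ⟨C, hC0, hC⟩ := coord_bound hM
  refine (Set.finite_Icc (fun _ : Fin n => -⌈C * R⌉) (fun _ : Fin n => ⌈C * R⌉)).subset ?_
  intro k hk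
  have h := hC (ivec k) R hk
  have h2 : ∀ i, |((k i : ℤ) : ℝ)| ≤ C * R := fun i => h i
  constructor
  · intro i
    have h3 := (abs_le.1 (h2 i)).1
    have h4 : (C * R : ℝ) ≤ (⌈C * R⌉ : ℝ) := Int.le_ceil _
    have h5 : (-(⌈C * R⌉ : ℝ)) ≤ (k i : ℝ) := by linarith
    show -⌈C * R⌉ ≤ k i
    exact_mod_cast h5
  · intro i
    have h3 := (abs_le.1 (h2 i)).2
    have h4 : (C * R : ℝ) ≤ (⌈C * R⌉ : ℝ) := Int.le_ceil _
    have h5 : (k i : ℝ) ≤ (⌈C * R⌉ : ℝ) := by linarith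
    show k i ≤ ⌈C * R⌉
    exact_mod_cast h5

theorem sS_bdd {M : Matrix (Fin n) (Fin n) ℝ} (hM : M.det ≠ 0) :
    Bornology.IsBounded (sS M) := by
  obtain ⟨C, hC0, hC⟩ := coord_bound hM
  refine (Metric.isBounded_closedBall (x := (0 : Fin n → ℝ)) (r := C)).subset ?_
  intro x hx
  rw [mem_closedBall_zero_iff, pi_norm_le_iff_of_nonneg hC0]
  intro i
  have h := hC (WithLp.toLp 2 x) 1 hx i
  rw [mul_one] at h
  exact h

theorem toLp_cont : Continuous (fun x : Fin n → ℝ => (WithLp.toLp 2 x : E n)) :=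
  PiLp.continuous_toLp 2 _

theorem sS_closed (M : Matrix (Fin n) (Fin n) ℝ) : IsClosed (sS M) := by
  have h : Continuous fun x : Fin n → ℝ => ‖act M (WithLp.toLp 2 x)‖ :=
    ((ND.act_cont M).comp toLp_cont).norm
  exact isClosed_le h continuous_const

theorem sS_convex (M : Matrix (Fin n) (Fin n) ℝ) : Convex ℝ (sS M) := by
  intro x hx y hy a b ha hb hab
  show ‖act M (WithLp.toLp 2 (a • x + b • y))‖ ≤ 1
  have e : (WithLp.toLp 2 (a • x + b • y) : E n) =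
      a • (WithLp.toLp 2 x : E n) + b • (WithLp.toLp 2 y : E n) := rfl
  rw [e, act_add, act_smul', act_smul']
  have hx' : ‖act M (WithLp.toLp 2 x)‖ ≤ 1 := hx
  have hy' : ‖act M (WithLp.toLp 2 y)‖ ≤ 1 := hy
  calc _ ≤ ‖a • act M (WithLp.toLp 2 x)‖ + ‖b • act M (WithLp.toLp 2 y)‖ := norm_add_le _ _
    _ = a * ‖act M (WithLp.toLp 2 x)‖ + b * ‖act M (WithLp.toLp 2 y)‖ := by
      rw [norm_smul, norm_smul, Real.norm_of_nonneg ha, Real.norm_of_nonneg hb]
    _ ≤ a * 1 + b * 1 := by gcongr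
    _ = 1 := by linarith

theorem sS_vol {M : Matrix (Fin n) (Fin n) ℝ} (hM : M.det ≠ 0) :
    volume.real (sS M) = |M.det|⁻¹ * (volume : Measure (E n)).real (Metric.closedBall 0 1) := by
  have h1 : volume (sS M) = (volume : Measure (E n)) {x | ‖act M x‖ ≤ 1} := by
    rw [← (PiLp.volume_preserving_toLp (Fin n)).measure_preimage]
    · rfl
    · exact (isClosed_le ((ND.act_cont M).norm) continuous_const).measurableSet.nullMeasurableSet
  have h2 : (volume : Measure (E n)) {x | ‖act M x‖ ≤ 1} =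
      Measure.map (act M) (volume : Measure (E n)) (Metric.closedBall 0 1) := by
    rw [(act_emb hM).map_apply]
    congr 1
    ext x
    simp
  rw [Measure.real, h1, h2, map_act hM, Measure.smul_apply, smul_eq_mul, ENNReal.toReal_mul,
    ENNReal.toReal_ofReal (abs_nonneg _), abs_inv]
  rfl

theorem card_eq {M : Matrix (Fin n) (Fin n) ℝ} (R : ℕ) (hR : R ≠ 0) :
    Nat.card ↑(sS M ∩ (R : ℝ)⁻¹ • (Submodule.span ℤ (Set.range (Pi.basisFun ℝ (Fin n))) :
      Set (Fin n → ℝ))) = Nat.card {k : Fin n → ℤ // ‖act M (ivec k)‖ ≤ (R : ℝ)} := by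
  have hR' : (R : ℝ) ≠ 0 := by exact_mod_cast hR
  have hR0 : (0 : ℝ) < R := by positivity
  symm
  have key : ∀ k : Fin n → ℤ, ‖act M (WithLp.toLp 2 ((R : ℝ)⁻¹ • fun i => (k i : ℝ)))‖ =
      (R : ℝ)⁻¹ * ‖act M (ivec k)‖ := by
    intro k
    have e : (WithLp.toLp 2 ((R : ℝ)⁻¹ • fun i => (k i : ℝ)) : E n) = (R : ℝ)⁻¹ • ivec k := rfl
    rw [e, act_smul', norm_smul, norm_inv, Real.norm_natCast]
  have hmem : ∀ k : Fin n → ℤ, (fun i => (k i : ℝ)) ∈
      Submodule.span ℤ (Set.range (Pi.basisFun ℝ (Fin n))) := by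
    intro k
    rw [Module.Basis.mem_span_iff_repr_mem]
    intro i
    exact ⟨k i, by simp⟩
  refine Nat.card_congr (Equiv.ofBijective (fun k : {k : Fin n → ℤ // ‖act M (ivec k)‖ ≤ (R : ℝ)} =>
    (⟨(R : ℝ)⁻¹ • fun i => (k.1 i : ℝ), ?_, ?_⟩ :
      ↑(sS M ∩ (R : ℝ)⁻¹ • (Submodule.span ℤ (Set.range (Pi.basisFun ℝ (Fin n))) :
      Set (Fin n → ℝ))))) ⟨?_, ?_⟩)
  · show ‖act M (WithLp.toLp 2 ((R : ℝ)⁻¹ • fun i => (k.1 i : ℝ)))‖ ≤ 1
    rw [key]
    rw [inv_mul_le_iff₀ hR0, mul_one]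
    exact k.2
  · exact Set.smul_mem_smul_set (hmem k.1)
  · intro k k' h
    have h1 := congrArg Subtype.val h
    apply Subtype.ext
    funext i
    have h2 := congrFun h1 i
    simp only [Pi.smul_apply, smul_eq_mul] at h2
    have h3 := mul_left_cancel₀ (inv_ne_zero hR') h2
    exact_mod_cast h3
  · rintro ⟨x, hx1, hx2⟩
    obtain ⟨y, hy, rfl⟩ := hx2
    have hy' : y ∈ Submodule.span ℤ (Set.range (Pi.basisFun ℝ (Fin n))) := hy
    rw [Module.Basis.mem_span_iff_repr_mem] at hy'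
    choose k hk using hy'
    have hk' : (fun i => (k i : ℝ)) = y := by
      funext i
      have := hk i
      simpa using this
    subst hk'
    refine ⟨⟨k, ?_⟩, rfl⟩
    have hx : ‖act M (WithLp.toLp 2 ((R : ℝ)⁻¹ • fun i => (k i : ℝ)))‖ ≤ 1 := hx1
    rw [key, inv_mul_le_iff₀ hR0, mul_one] at hx
    exact hx

theorem pCT : Pool.Agent.Helper71.FX.StCT := by
  intro n A hA
  refine ⟨(volume : Measure (E n)).real (Metric.closedBall 0 1), ?_, ?_⟩
  · rw [Measure.real, ENNReal.toReal_pos_iff]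
    exact ⟨Metric.measure_closedBall_pos _ _ one_pos, measure_closedBall_lt_top⟩
  · intro i
    have hu : IsUnit A.det := isUnit_iff_ne_zero.2 hA
    have hdet : (A ^ (-i)).det ≠ 0 := (hu.det_zpow (-i)).ne_zero
    refine ⟨fun R => fin_lattice hdet R, ?_⟩
    have h := tendsto_card_div_pow_atTop_volume (sS (A ^ (-i))) (sS_bdd hdet)
      (sS_closed _).measurableSet ((sS_convex _).addHaar_frontier volume)
    rw [sS_vol hdet, det_zpow' hA, abs_zpow, zpow_neg, inv_inv, Fintype.card_fin] at h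
    refine h.congr' ?_
    filter_upwards [eventually_ne_atTop 0] with R hR
    rw [card_eq R hR]

end Pool.Agent.Helper29.FX
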