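import Pool.Agent.Helper87.FX.StA

set_option autoImplicit false

/-!
Project FX (MP_3bffab_ag), module EXS: one step of the exhaustion.
-/

namespace Pool.Agent.Helper29.FX

open Pool.Agent.Helper87.FX
open Set Topology Metric

/-- **EXS** (one step of the exhaustion). -/
theorem hEXS : StDSC → StOEC → StTRN → StEXS := by
  intro hDSC hOEC hTRN E V _ _ _ _ _ _ X hExh g r K hr hg hK hKX
  have : ProperSpace E := FiniteDimensional.proper_real E
  obtain ⟨e, he, hKe⟩ := hExh (K ∪ g '' closedBall 0 (r + 1))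
    (hK.union ((isCompact_closedBall (0 : E) (r + 1)).image hg.sm.continuous))
    (union_subset hKX ((image_subset_range g _).trans hg.sub))
  obtain ⟨φ, hφ, heφ⟩ := hTRN E V X e g (r + 1) he hg
    ((image_mono ball_subset_closedBall).trans (subset_union_right.trans hKe))
  obtain ⟨θ, hθ, hθφ⟩ := hDSC E φ r (r + 1) hr (by linarith) hφ
  obtain ⟨hoe, hrg⟩ := hOEC E V X e θ he hθ
  have hKg : K ⊆ range (fun x => e (θ x)) := by
    rw [hrg]
    exact subset_union_left.trans hKe
  have hc : IsCompact ((fun x => e (θ x)) ⁻¹' K) :=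
    (hoe.emb.isInducing.isCompact_preimage_iff hKg).2 hK
  obtain ⟨r', hr', hsub⟩ := hc.isBounded.subset_ball_lt (r + 1) 0
  refine ⟨fun x => e (θ x), r', hoe, hr'.le, ?_, ?_⟩
  · intro x hx
    change e (θ x) = g x
    rw [hθφ x hx, heφ x]
    exact closedBall_subset_ball (by linarith) hx
  · intro y hy
    obtain ⟨x, rfl⟩ := hKg hy
    exact ⟨x, hsub hy, rfl⟩

end Pool.Agent.Helper29.FX
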