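import Pool.Agent.Helper72.FX.StK

/-!
# Project FX, module NPI: `NP` is invariant under ring isomorphisms and passes to `MvPolynomial`
-/

set_option autoImplicit false

namespace Pool.Agent.Helper29.FX

open Pool.Agent.Helper72.FX Polynomial

theorem np_iso (hRES : StRES) (A A' : Type) [CommRing A] [CommRing A'] (e : A ≃+* A')
    (h : NP A) : NP A' := by
  obtain ⟨Λ, iΛ, χ, h0, N, iN, iM, hf, hN⟩ := h
  obtain ⟨ψ, hψ⟩ := hRES A' A e.toRingHom ⊥ ⊥ (by rw [Ideal.map_bot])
    (fun a => ⟨e.symm a, by simp⟩) Λ χ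
  let iM' : Module A' N := Module.compHom N e.symm.toRingHom
  have hsm : ∀ (a : A) (m : N), e.toRingHom a • m = a • m := by
    intro a m
    change (e.symm (e a)) • m = a • m
    rw [e.symm_apply_apply]
  refine ⟨Λ, iΛ, ψ, ?_, N, iN, iM', ?_, ?_⟩
  · let iA : Module A A' := Module.compHom A' e.toRingHom
    have h1 : ψ.f A' = χ.f A' := hψ A' (fun a m => rfl)
    let e' : A' ≃ₗ[A] A :=
      { toFun := e.symm
        invFun := e
        left_inv := fun x => e.apply_symm_apply x
        right_inv := fun x => e.symm_apply_apply x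
        map_add' := fun x y => map_add e.symm x y
        map_smul' := fun a x => by
          change e.symm (e a * x) = a * e.symm x
          rw [map_mul, e.symm_apply_apply] }
    have h2 : χ.f A' = χ.f A := AF.equiv χ (gd_kil ⊥) e' inferInstance (by
      intro x hx y
      rw [(Ideal.mem_bot).1 hx, zero_smul])
    rw [h1, h2, h0]
  · obtain ⟨s, hs⟩ := hf.fg_top
    refine ⟨⟨s, ?_⟩⟩
    rw [eq_top_iff]
    intro y _
    have hy : y ∈ Submodule.span A (s : Set N) := by rw [hs]; trivial
    induction hy using Submodule.span_induction with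
    | mem x hx => exact Submodule.subset_span hx
    | zero => exact Submodule.zero_mem _
    | add x y _ _ hx hy => exact Submodule.add_mem _ (hx trivial) (hy trivial)
    | smul a x _ hx =>
      rw [← hsm a x]
      exact Submodule.smul_mem _ _ (hx trivial)
  · rw [hψ N hsm]
    exact hN

theorem hNPI : StNPI := by
  intro hRES hNPX hEXT hDQ hSNK hPMX
  refine ⟨fun A A' _ _ e h => np_iso hRES A A' e h, ?_⟩
  intro A _ _ σ _ h
  have hfin : ∀ n : ℕ, NP (MvPolynomial (Fin n) A) := by
    intro n
    induction n with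
    | zero => exact np_iso hRES _ _ (MvPolynomial.isEmptyAlgEquiv A (Fin 0)).symm.toRingEquiv h
    | succ n ih =>
      exact np_iso hRES _ _ (MvPolynomial.finSuccEquiv A n).symm.toRingEquiv
        (hNPX hEXT hDQ hSNK hRES hPMX _ ih)
  obtain ⟨n, ⟨e⟩⟩ := Finite.exists_equiv_fin σ
  exact np_iso hRES _ _ (MvPolynomial.renameEquiv A e.symm).toRingEquiv (hfin n)

end Pool.Agent.Helper29.FX
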